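import Mathlib
import Pool.Agent.Mg.F43e117.Gdbd69a

set_option autoImplicit false

namespace Pool.Agent.Results.MP_c853c5_nt.CramerCharTwo

open Polynomial

/-- Over a finite field of characteristic two, in every large degree `n` there is an interval of
size at least `c * n ^ 2` containing no irreducible polynomial. -/
theorem result (F : Type) [Field F] [Fintype F] [CharP F 2] :
    ∃ c : ℝ, 0 < c ∧ ∀ᶠ n : ℕ in Filter.atTop, ∃ (f : F[X]) (h : ℕ),
      f.Monic ∧ f.natDegree = n ∧ h < n ∧ c * (n : ℝ) ^ 2 ≤ (Fintype.card F : ℝ) ^ h ∧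
        ∀ y : F[X], y.degree < h → ¬ Irreducible (f + y) := by
  have hq : (0 : ℝ) < Fintype.card F := by exact_mod_cast Fintype.card_pos
  refine ⟨(256 * (Fintype.card F : ℝ) ^ 50)⁻¹, by positivity, ?_⟩
  filter_upwards [Pool.Agent.MP_c853c5_nt.gap_two (F := F)] with n ⟨f, h, h1, h2, h3, h4, h5⟩
  refine ⟨f, h, h1, h2, h3, ?_, h5⟩
  rw [inv_mul_le_iff₀ (by positivity)]
  exact_mod_cast h4

end Pool.Agent.Results.MP_c853c5_nt.CramerCharTwo
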