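import Pool.Agent.Mg.C853.G587945
import Pool.Agent.Mg.C853.G17fd4f
import Pool.Agent.Mg.C853.G4b006f
import Pool.Agent.MP_c853c5_nt.X.C4950.Top
import Pool.Agent.MP_c853c5_nt.X.C4950.Link

set_option autoImplicit false

namespace Pool.Agent.Results.MP_c853c5_nt.PrimeGap

open Pool.Agent.MP_c853c5_nt.X Pool.Agent.MP_c853c5_nt.X.C4950

theorem result : ∀ θ : ℝ, 505 / 1000 < θ → ∃ n₀ : ℕ, ∀ n : ℕ, n₀ ≤ n →
    ∃ p : ℕ, p.Prime ∧ n < p ∧ (p : ℝ) < n + (n : ℝ) ^ θ := fun θ hθ =>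
  gap4 (by decide) (by decide) hU2 hU3 bU2 bU3
    (fun _ h q2 q3 =>
      have h8 := h.ewP 7 W4950.PCS (by norm_num) (by norm_num) (by norm_num) W4950.ct_ok W4950.tt_ok
      ⟨h.uwR, pvR_ok h8,
        gdR_ok mk_ok (it5_ok (fp2_ok q2) (fp3_ok q3) h.uwP.it h8.it) gdV_ok,
        gaT_ok (ia6_ok (gt2_ok (τ := 8) (by norm_num) q2) (gt3_ok (τ := 8) (by norm_num) q3)
          (ofT_ok h.uwP.flt) (ofT_ok h8.flt) (gt2_ok (τ := 4) (by norm_num) q2)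
          (gt3_ok (τ := 4) (by norm_num) q3))⟩)
    (by norm_num) top θ (by push_cast; linarith)

end Pool.Agent.Results.MP_c853c5_nt.PrimeGap
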