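import Mathlib
import Pool.Agent.Mg.F43e117.G6d3cff

/- Primes of `F[X]`, characteristic two, in all short intervals of exponent `1 / 2 - δ`. -/

set_option autoImplicit false

namespace Pool.Agent.Results.MP_c853c5_nt.ShortIntervals

open Polynomial Finset Pool.Agent.MP_4fffd4_nt Pool.Agent.MP_c853c5_nt
open scoped BigOperators

universe u

theorem result : ∃ δ : ℝ, 0 < δ ∧ ∀ (F : Type u) [Field F] [Fintype F] [CharP F 2],
    ∃ n₀ : ℕ, ∀ n h : ℕ, n₀ ≤ n → h ≤ n → (1 / 2 - δ) * n ≤ h →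
      ∀ f : F[X], f.Monic → f.natDegree = n →
        |({y : F[X] | y.degree < h ∧ Irreducible (f + y)}.ncard : ℝ) -
          (Fintype.card F : ℝ) ^ h / n| ≤ (Fintype.card F : ℝ) ^ ((h : ℝ) - δ * n) := by
  obtain ⟨D, hD, H⟩ := main_all.{u}
  have hD' : (0 : ℝ) < D := by exact_mod_cast hD
  refine ⟨1 / (4 * D), by positivity, fun F _ _ _ => ?_⟩
  obtain ⟨n₀, hn₀⟩ := H F
  refine ⟨n₀ + D, fun n h hn h1 h2 f hf hd => ?_⟩
  have hq := card_pos' (F := F)
  have hq1 : (1 : ℝ) ≤ Fintype.card F := one_le_two.trans two_le_card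
  have a1 : 1 ≤ n / D := (Nat.le_div_iff_mul_le hD).2 (by omega)
  have a2 : n ≤ 2 * D * (n / D) := by
    have := Nat.lt_mul_div_succ n hD
    nlinarith
  have a3 : 1 / (4 * D : ℝ) * n * 2 ≤ (n / D : ℕ) := by
    have : (n : ℝ) ≤ 2 * D * (n / D : ℕ) := by exact_mod_cast a2
    rw [show 1 / (4 * D : ℝ) * n * 2 = n / (2 * D) by field_simp; ring, div_le_iff₀ (by positivity)]
    linarith
  have a4 : n ≤ 2 * h + n / D := by
    have : (n : ℝ) ≤ 2 * h + (n / D : ℕ) := by linarith
    exact_mod_cast this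
  have a5 := hn₀ n (by omega) h h1 a4 f hf hd
  have a6 : ({y : F[X] | y.degree < h ∧ Irreducible (f + y)}.ncard : ℝ) =
      ∑ y : degreeLT F h, ind (Irreducible (f + y.1)) := by
    classical
    rw [show {y : F[X] | y.degree < h ∧ Irreducible (f + y)} =
      ↑((ltF F h).filter fun y => Irreducible (f + y)) by ext y; simp [mem_ltF],
      Set.ncard_coe_finset, Finset.card_filter, ltF, Finset.sum_map]
    push_cast
    exact Finset.sum_congr rfl fun y _ => by unfold ind; congr
  rw [expect_LT, ← a6] at a5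
  rw [show ∀ x : ℝ, x - (Fintype.card F : ℝ) ^ h / n =
    (x / (Fintype.card F : ℝ) ^ h - 1 / n) * (Fintype.card F : ℝ) ^ h from
      fun x => by field_simp, abs_mul, abs_of_pos (pow_pos hq h), Real.rpow_sub hq,
    Real.rpow_natCast, div_eq_mul_one_div ((Fintype.card F : ℝ) ^ h), mul_comm]
  refine mul_le_mul_of_nonneg_left (a5.trans (one_div_le_one_div_of_le (by positivity) ?_))
    (by positivity)
  rw [← Real.rpow_natCast]
  refine Real.rpow_le_rpow_of_exponent_le hq1 ?_
  have : 0 ≤ 1 / (4 * D : ℝ) * n := by positivity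
  linarith

end Pool.Agent.Results.MP_c853c5_nt.ShortIntervals
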