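import Pool.Agent.Mg.C853.Gca6e0f
import Pool.Agent.Mg.C853.G4b208c

set_option autoImplicit false

namespace Pool.Agent.Results.MP_c853c5_nt.ShortPNT

theorem result :
    ∀ θ : ℝ, 5 / 9 < θ → ∀ ε : ℝ, 0 < ε → ∃ x₀ : ℝ, ∀ x : ℝ, x₀ ≤ x →
      ∀ y : ℝ, x ^ θ ≤ y → y ≤ x →
        |((Nat.primeCounting ⌊x + y⌋₊ : ℝ) - (Nat.primeCounting ⌊x⌋₊ : ℝ)) - y / Real.log x| ≤
          ε * (y / Real.log x) :=
  fun _ hθ => Pool.Agent.MP_c853c5_nt.Z.pi_of_sq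
    (Pool.Agent.MP_c853c5_nt.Z.sq_of_int6 Pool.Agent.MP_2a1f0e_nt.SQ.int6_all) hθ

end Pool.Agent.Results.MP_c853c5_nt.ShortPNT
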